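import Mathlib
import Pool.Agent.TH297.PG.C
set_option autoImplicit false

namespace Pool.Agent.TH297.UD

open Pool.Agent.Results.MP_5ca50a_lc.SmallExponents Pool.Agent.TH297.PK Pool.Agent.TH297.PG

section
variable {α : Type} {n : ℕ} (W : ZMod n → α) (g : ContextFreeGrammar α)

/-- Moves along the boundary between the periodic part and the rest, without letters on the
right. -/
def Bx (p q : St g × ZMod n) (a : ℕ) : Prop :=
  q.2 = p.2 + (a : ZMod n) ∧ ∀ y, Gen g q.1.1 y → Gen g p.1.1 (seg W p.2 a ++ y)

variable {W g}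

theorem Bx.refl (p : St g × ZMod n) : Bx W g p p 0 := ⟨by simp, fun y h => by simpa [seg] using h⟩

theorem Bx.trans {p q r : St g × ZMod n} {a b : ℕ} (h1 : Bx W g p q a) (h2 : Bx W g q r b) :
    Bx W g p r (a + b) := by
  refine ⟨?_, fun y hy => ?_⟩
  · rw [h2.1, h1.1]; push_cast; ring
  · rw [seg_add, List.append_assoc, ← h1.1]
    exact h1.2 _ (h2.2 y hy)

theorem Bx.iter {p : St g × ZMod n} {c : ℕ} (h : Bx W g p p c) (k : ℕ) : Bx W g p p (k * c) := by
  induction k with
  | zero => simpa using Bx.refl p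
  | succ k ih => rw [Nat.succ_mul]; exact ih.trans h

variable (W g) in
/-- Labels reachable along the boundary. -/
def Rb (p : St g × ZMod n) : Set (St g × ZMod n) := {q | ∃ a, Bx W g p q a}

theorem Rb.self (p : St g × ZMod n) : p ∈ Rb W g p := ⟨0, Bx.refl p⟩

theorem Rb.sub {p q : St g × ZMod n} {a : ℕ} (h : Bx W g p q a) : Rb W g q ⊆ Rb W g p := by
  rintro r ⟨b, hb⟩
  exact ⟨_, h.trans hb⟩

variable [NeZero n]

theorem Rb.le {p q : St g × ZMod n} {a : ℕ} (h : Bx W g p q a) :
    (Rb W g q).ncard ≤ (Rb W g p).ncard :=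
  Set.ncard_le_ncard (Rb.sub h) (Set.toFinite _)

theorem Rb.lt {p q : St g × ZMod n} {a : ℕ} (h : Bx W g p q a) (hn : p ∉ Rb W g q) :
    (Rb W g q).ncard + 1 ≤ (Rb W g p).ncard := by
  have hsub : insert p (Rb W g q) ⊆ Rb W g p := by
    intro x hx
    rcases hx with rfl | hx
    · exact Rb.self _
    · exact Rb.sub h hx
  have h1 := Set.ncard_le_ncard hsub (Set.toFinite _)
  rwa [Set.ncard_insert_of_notMem hn (Set.toFinite _)] at h1

theorem seg_add_mul (i : ZMod n) (a m k : ℕ) :
    seg W i (k * (n * m) + a) = seg W i (k * (n * m)) ++ seg W i a := by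
  rw [seg_add]
  congr 2
  push_cast
  rw [ZMod.natCast_self]
  ring

theorem seg_split (i : ZMod n) (a1 a2 m k : ℕ) :
    seg W i (a1 + a2 + k * (n * m)) = seg W i (a1 + k * n * m) ++ seg W (i + (a1 : ZMod n)) a2 := by
  have : a1 + a2 + k * (n * m) = (a1 + k * n * m) + a2 := by ring
  rw [this, seg_add]
  congr 2
  push_cast
  rw [ZMod.natCast_self]
  ring

/-- The main lemma on derivations of words `seg ++ v`. -/
theorem spine {ι : Type} (c : ι → ℕ) (T K1 : ℕ) (hT : 1 ≤ T)
    (hc : ∀ s : St g, ∀ (i : ZMod n) (v : ℕ), Gen g s.1 (seg W i v) → T ≤ v →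
      ∃ l, ∀ j : ℕ, Gen g s.1 (seg W i (v + j * c l)))
    (c2 : St g × ZMod n → ℕ)
    (hc2 : ∀ p, (∃ c, 0 < c ∧ Bx W g p p c) → Bx W g p p (c2 p))
    (hK1 : ∀ p : St g × ZMod n, (Rb W g p).ncard ≤ K1)
    {s : List (Symbol α g.NT)} {x : List α} (h : Gen g s x) :
    ∀ (hs : s ∈ St g) (i : ZMod n) (a : ℕ) (v : List α), x = seg W i a ++ v →
      (∃ l : ι ⊕ (St g × ZMod n), ∀ k : ℕ,
        Gen g s (seg W i (a + k * (n * Sum.elim c c2 l)) ++ v)) ∨
      a ≤ T * (Rb W g (⟨s, hs⟩, i)).ncard + v.length * (T * K1) := by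
  -- loops at good labels
  have hgood : ∀ (p : St g × ZMod n) (a : ℕ) (v : List α), (∃ c, 0 < c ∧ Bx W g p p c) →
      Gen g p.1.1 (seg W p.2 a ++ v) →
      (∃ l : ι ⊕ (St g × ZMod n), ∀ k : ℕ,
        Gen g p.1.1 (seg W p.2 (a + k * (n * Sum.elim c c2 l)) ++ v)) := by
    intro p a v hp hg
    refine ⟨Sum.inr p, fun k => ?_⟩
    have h1 := ((hc2 p hp).iter (k * n)).2 _ hg
    rw [← List.append_assoc] at h1
    simp only [Sum.elim_inr]
    rw [Nat.add_comm, seg_add_mul]
    rwa [Nat.mul_assoc] at h1
  induction h with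
  | nil =>
    intro hs i a v he
    right
    have : a = 0 := by
      have := congrArg List.length he
      rw [List.length_append, seg_length] at this
      simp only [List.length_nil] at this
      omega
    omega
  | @term b s x h ih =>
    intro hs i a v he
    rcases a with _ | a
    · right; omega
    · have hx : Gen g (Symbol.terminal b :: s) (b :: x) := Gen.term b h
      rw [seg, List.cons_append, List.cons.injEq] at he
      obtain ⟨rfl, he⟩ := he
      have hs' : s ∈ St g := by
        rcases St.ofInner (g := g) (List.suffix_cons _ _).isInfix hs (by simp) with h' | h'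
        · exact h'
        · rw [h']; exact St.nil_mem hs
      have hB : Bx W g (⟨_, hs⟩, i) (⟨s, hs'⟩, i + 1) 1 := by
        refine ⟨by simp, fun y hy => ?_⟩
        exact Gen.term _ hy
      by_cases hG : ((⟨_, hs⟩, i) : St g × ZMod n) ∈ Rb W g (⟨s, hs'⟩, i + 1)
      · left
        obtain ⟨u, hu⟩ := hG
        refine hgood (⟨_, hs⟩, i) (a + 1) v ⟨_, by omega, hB.trans hu⟩ ?_
        rw [seg, List.cons_append, ← he]
        exact hx
      · rcases ih hs' (i + 1) a v he with ⟨l, hl⟩ | hle
        · left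
          refine ⟨l, fun k => ?_⟩
          rw [Nat.add_right_comm, seg, List.cons_append]
          exact Gen.term _ (hl k)
        · right
          have h1 := Rb.lt hB hG
          calc a + 1 ≤ T * (Rb W g (⟨s, hs'⟩, i + 1)).ncard + v.length * (T * K1) + T := by omega
            _ = T * ((Rb W g (⟨s, hs'⟩, i + 1)).ncard + 1) + v.length * (T * K1) := by ring
            _ ≤ _ := Nat.add_le_add_right (Nat.mul_le_mul_left T h1) _
  | @nt r hr s w1 w2 h1 h2 ih1 ih2 =>
    intro hs i a v he
    have hx : Gen g (Symbol.nonterminal r.input :: s) (w1 ++ w2) := Gen.nt r hr h1 h2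
    have hs' : s ∈ St g := by
      rcases St.ofInner (g := g) (List.suffix_cons _ _).isInfix hs (by simp) with h' | h'
      · exact h'
      · rw [h']; exact St.nil_mem hs
    have ho : r.output ∈ St g := Or.inr ⟨r, hr, List.infix_refl _⟩
    rcases List.append_eq_append_iff.mp he with ⟨m, e1, e2⟩ | ⟨m, e1, e2⟩
    · -- the first part lies inside the periodic part
      have hlen : a = w1.length + m.length := by
        have := congrArg List.length e1
        rw [seg_length, List.length_append] at this
        exact this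
      obtain ⟨a1, ha1⟩ : ∃ a1, a1 = w1.length := ⟨_, rfl⟩
      obtain ⟨a2, ha2⟩ : ∃ a2, a2 = m.length := ⟨_, rfl⟩
      rw [← ha1, ← ha2] at hlen
      subst hlen
      rw [seg_add] at e1
      obtain ⟨e3, e4⟩ := List.append_inj e1 (by rw [seg_length, ha1])
      rw [← e3] at h1
      rcases Nat.lt_or_ge a1 T with hlt | hge
      · have hB : Bx W g (⟨_, hs⟩, i) (⟨s, hs'⟩, i + (a1 : ZMod n)) a1 :=
          ⟨rfl, fun y hy => Gen.nt r hr h1 hy⟩
        have hIH := ih2 hs' (i + (a1 : ZMod n)) a2 v (by rw [e2, e4])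
        have pass : (∃ l : ι ⊕ (St g × ZMod n), ∀ k : ℕ,
            Gen g s (seg W (i + (a1 : ZMod n)) (a2 + k * (n * Sum.elim c c2 l)) ++ v)) →
            ∃ l : ι ⊕ (St g × ZMod n), ∀ k : ℕ,
              Gen g (Symbol.nonterminal r.input :: s)
                (seg W i (a1 + a2 + k * (n * Sum.elim c c2 l)) ++ v) := by
          rintro ⟨l, hl⟩
          refine ⟨l, fun k => ?_⟩
          rw [Nat.add_assoc, seg_add, List.append_assoc]
          exact Gen.nt r hr h1 (hl k)
        rcases Nat.eq_zero_or_pos a1 with h0 | hpos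
        · rcases hIH with hl | hle
          · exact Or.inl (pass hl)
          · right
            have h3 := Nat.mul_le_mul_left T (Rb.le hB)
            omega
        · by_cases hG : ((⟨_, hs⟩, i) : St g × ZMod n) ∈ Rb W g (⟨s, hs'⟩, i + (a1 : ZMod n))
          · left
            obtain ⟨u, hu⟩ := hG
            refine hgood (⟨_, hs⟩, i) (a1 + a2) v ⟨_, by omega, hB.trans hu⟩ ?_
            rw [← he]
            exact hx
          · rcases hIH with hl | hle
            · exact Or.inl (pass hl)
            · right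
              have h3 := Nat.mul_le_mul_left T (Rb.lt hB hG)
              rw [Nat.mul_add, Nat.mul_one] at h3
              omega
      · left
        obtain ⟨l, hl⟩ := hc ⟨_, ho⟩ i a1 h1 hge
        refine ⟨Sum.inl l, fun k => ?_⟩
        simp only [Sum.elim_inl]
        rw [seg_split, List.append_assoc]
        refine Gen.nt r hr (hl (k * n)) ?_
        rw [e4, ← e2]
        exact h2
    · -- the first part covers the periodic part
      have hIH := ih1 ho i a m e1
      rcases hIH with ⟨l, hl⟩ | hle
      · left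
        refine ⟨l, fun k => ?_⟩
        rw [e2, ← List.append_assoc]
        exact Gen.nt r hr (hl k) h2
      · right
        rcases w2 with _ | ⟨b, w2⟩
        · have hB : Bx W g (⟨_, hs⟩, i) (⟨r.output, ho⟩, i) 0 := by
            refine ⟨by simp, fun y hy => ?_⟩
            have := Gen.nt r hr hy h2
            simpa [seg] using this
          have h3 := Nat.mul_le_mul_left T (Rb.le hB)
          rw [List.append_nil] at e2
          rw [e2]
          omega
        · have h3 := Nat.mul_le_mul_left T (hK1 (⟨r.output, ho⟩, i))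
          have h4 : v.length = m.length + (w2.length + 1) := by
            rw [e2, List.length_append, List.length_cons]
          have h5 : (m.length + 1) * (T * K1) ≤ v.length * (T * K1) :=
            Nat.mul_le_mul_right _ (by omega)
          have h6 : (m.length + 1) * (T * K1) = m.length * (T * K1) + T * K1 := by ring
          omega

end

/-- Words with a long periodic initial part. -/
theorem long_prefix {α : Type} (g : ContextFreeGrammar α) :
    ∃ B : ℕ, ∀ (n : ℕ) (_ : 0 < n) (W : ZMod n → α),
    ∃ D : ℕ, 0 < D ∧ ∀ (M : ℕ) (v : List α), 2 ^ (B * n ^ 2) * (v.length + 1) < M →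
      seg W 0 (n * M) ++ v ∈ g.language → seg W 0 (n * (M + D)) ++ v ∈ g.language := by
  classical
  have : Fintype (St g) := Fintype.ofFinite _
  refine ⟨2 * Fintype.card (St g), ?_⟩
  intro n hn W
  have : NeZero n := ⟨hn.ne'⟩
  obtain ⟨c, hc1, hc2⟩ := unary (sysG W g)
  let T := 2 ^ Fintype.card (St g × ZMod n × ZMod n)
  let K1 := Fintype.card (St g × ZMod n)
  have hTK : T * K1 ≤ 2 ^ (2 * Fintype.card (St g) * n ^ 2) := by
    have hcard : Fintype.card (St g × ZMod n × ZMod n) = Fintype.card (St g) * n ^ 2 := by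
      rw [Fintype.card_prod, Fintype.card_prod, ZMod.card]; ring
    have hcard2 : K1 = Fintype.card (St g) * n := by
      show Fintype.card (St g × ZMod n) = _
      rw [Fintype.card_prod, ZMod.card]
    have h1 : K1 ≤ 2 ^ (Fintype.card (St g) * n ^ 2) := by
      rw [hcard2]
      calc Fintype.card (St g) * n ≤ Fintype.card (St g) * n ^ 2 :=
            Nat.mul_le_mul_left _ (by nlinarith)
        _ ≤ 2 ^ (Fintype.card (St g) * n ^ 2) := Nat.lt_two_pow_self.le
    calc T * K1 ≤ 2 ^ (Fintype.card (St g) * n ^ 2) * 2 ^ (Fintype.card (St g) * n ^ 2) := by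
          have : T = 2 ^ (Fintype.card (St g) * n ^ 2) := by rw [← hcard]
          rw [this]
          exact Nat.mul_le_mul_left _ h1
      _ = 2 ^ (2 * Fintype.card (St g) * n ^ 2) := by rw [← pow_add]; congr 1; ring
  let c2 : St g × ZMod n → ℕ := fun p =>
    if h : ∃ c, 0 < c ∧ Bx W g p p c then Classical.choose h else 1
  have hc2' : ∀ p, (h : ∃ c, 0 < c ∧ Bx W g p p c) → 0 < c2 p ∧ Bx W g p p (c2 p) := by
    intro p h
    have e : c2 p = Classical.choose h := dif_pos h
    rw [e]
    exact Classical.choose_spec h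
  have hc2pos : ∀ p, 0 < c2 p := by
    intro p
    by_cases h : ∃ c, 0 < c ∧ Bx W g p p c
    · exact (hc2' p h).1
    · have e : c2 p = 1 := dif_neg h
      rw [e]; exact one_pos
  have hpos : ∀ l : (St g × ZMod n × ZMod n) ⊕ (St g × ZMod n), 0 < Sum.elim c c2 l := by
    rintro (l | p)
    · exact (hc1 l).1
    · exact hc2pos p
  let D := ∏ l : (St g × ZMod n × ZMod n) ⊕ (St g × ZMod n), Sum.elim c c2 l
  refine ⟨D, Finset.prod_pos fun l _ => hpos l, ?_⟩
  intro M v hM hmem
  rw [mem_language_iff_genN] at hmem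
  obtain ⟨o, ho, hg⟩ := hmem
  have hst : o ∈ St g := Or.inr ⟨_, ho, List.infix_refl _⟩
  have hsp := spine (W := W) (g := g) c T K1 Nat.one_le_two_pow (by
      intro s i v' hv' hTv
      obtain ⟨k, hk⟩ := complete (W := W) hv' s.2 i v' rfl
      obtain ⟨l, hl⟩ := hc2 _ _ _ hk hTv
      refine ⟨l, fun j => ?_⟩
      obtain ⟨k', hk'⟩ := hl j
      exact (sound hk').1) c2 (fun p h => (hc2' p h).2) (by
      intro p
      have : (Rb W g p).ncard ≤ Fintype.card (St g × ZMod n) := by
        rw [← Nat.card_eq_fintype_card]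
        exact Set.ncard_le_card _
      exact this) hg hst 0 (n * M) v rfl
  rcases hsp with ⟨l, hl⟩ | hle
  · obtain ⟨e, he⟩ := Finset.dvd_prod_of_mem (fun l => Sum.elim c c2 l) (Finset.mem_univ l)
    have h1 := hl e
    have h2 : n * M + e * (n * Sum.elim c c2 l) = n * (M + D) := by
      have : D = Sum.elim c c2 l * e := he
      rw [this]; ring
    rw [h2] at h1
    rw [mem_language_iff_genN]
    exact ⟨o, ho, h1⟩
  · exfalso
    have h1 : (Rb W g (⟨o, hst⟩, 0)).ncard ≤ K1 := by
      show _ ≤ Fintype.card (St g × ZMod n)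
      rw [← Nat.card_eq_fintype_card]
      exact Set.ncard_le_card _
    have h2 : T * (Rb W g (⟨o, hst⟩, 0)).ncard ≤ T * K1 := Nat.mul_le_mul_left T h1
    have h3 : M ≤ n * M := Nat.le_mul_of_pos_left M hn
    have h4 : T * K1 * (v.length + 1) = T * K1 + v.length * (T * K1) := by ring
    have h5 : T * K1 * (v.length + 1) ≤ 2 ^ (2 * Fintype.card (St g) * n ^ 2) * (v.length + 1) :=
      Nat.mul_le_mul_right _ hTK
    omega

/-- Powers of a word that represents an element of infinite order are long. -/
theorem power_bound {G : Type} [Group G] {k : ℕ} (f : Fin k → G)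
    (h : Language.IsContextFree ({w : List (Fin k) | (w.map f).prod ≠ 1} : Language (Fin k))) :
    ∃ B : ℕ, ∀ w : List (Fin k), ¬ IsOfFinOrder (w.map f).prod →
      ∀ (N : ℕ) (v : List (Fin k)), (w.map f).prod ^ N * (v.map f).prod = 1 →
      N ≤ 2 ^ (B * w.length ^ 2) * v.length := by
  obtain ⟨g, hg⟩ := h
  obtain ⟨B, hB⟩ := long_prefix g
  refine ⟨B, fun w hw => ?_⟩
  have hpos : 0 < w.length := by
    rcases Nat.eq_zero_or_pos w.length with h0 | h0
    · have : w = [] := List.length_eq_zero_iff.mp h0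
      subst this
      exact absurd (by simp [IsOfFinOrder.one]) hw
    · exact h0
  obtain ⟨D, hD, hDC⟩ := hB _ hpos (per w hpos)
  obtain ⟨C, hC⟩ : ∃ C, C = 2 ^ (B * w.length ^ 2) := ⟨_, rfl⟩
  rw [← hC] at hDC
  rw [← hC]
  have hmem : ∀ (M : ℕ) (v : List (Fin k)), seg (per w hpos) 0 (w.length * M) ++ v ∈ g.language ↔
      (w.map f).prod ^ M * (v.map f).prod ≠ 1 := by
    intro M v
    rw [hg]
    show ((seg (per w hpos) 0 (w.length * M) ++ v).map f).prod ≠ 1 ↔ _
    rw [List.map_append, List.prod_append, prod_seg]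
  have key : ∀ (N : ℕ) (v : List (Fin k)), (w.map f).prod ^ N * (v.map f).prod = 1 →
      N ≤ C * (v.length + 1) + D := by
    intro N v hNv
    by_contra hcon
    push Not at hcon
    have hND : D ≤ N := by omega
    obtain ⟨M, rfl⟩ := Nat.exists_eq_add_of_le' hND
    refine (hmem (M + D) v).mp (hDC M v (by omega) ((hmem M v).mpr ?_)) hNv
    intro h1
    rw [Nat.add_comm, pow_add, mul_assoc, h1, mul_one] at hNv
    exact hw (isOfFinOrder_iff_pow_eq_one.mpr ⟨D, hD, hNv⟩)
  intro N v hNv
  by_contra hcon
  push Not at hcon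
  -- pass to powers
  have h1 : ∀ j : ℕ, N * j ≤ C * (j * v.length + 1) + D := by
    intro j
    have e1 : ((List.replicate j v).flatten.map f).prod = (v.map f).prod ^ j := by
      induction j with
      | zero => simp
      | succ j ih =>
        rw [List.replicate_succ, List.flatten_cons, List.map_append, List.prod_append, ih,
          pow_succ']
    have e2 : (List.replicate j v).flatten.length = j * v.length := by simp
    have e3 : (w.map f).prod ^ N = ((v.map f).prod)⁻¹ := eq_inv_of_mul_eq_one_left hNv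
    have := key (N * j) (List.replicate j v).flatten (by
      rw [e1, pow_mul, e3, inv_pow, inv_mul_cancel])
    rw [e2] at this
    exact this
  have h2 := h1 (C + D + 1)
  have h3 : (C * v.length + 1) * (C + D + 1) ≤ N * (C + D + 1) := Nat.mul_le_mul_right _ hcon
  nlinarith

end Pool.Agent.TH297.UD
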